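import Pool.Agent.H27.L1.H34.GZ.Targets2
import Pool.Agent.H27.L1.H34.GM.PSI

/-!
Row PSZ of the board gz: the additive character of the matrices modulo `q` given by the trace.
-/

namespace Pool.Agent.H27.L1.H86.GZ

open MeasureTheory Pool.Agent.H27.L1.H34.GM Pool.Agent.H27.L1.H34.GZ

theorem psz_int (q : ℕ) [NeZero q] (n : ℤ) :
    ee ((((n : ZMod q)).val : ℝ) / q) = ee ((n : ℝ) / q) := by
  have h : (q : ℤ) ∣ n - (((n : ZMod q)).val : ℤ) := by
    have := (ZMod.intCast_eq_intCast_iff_dvd_sub (((n : ZMod q)).val : ℤ) n q).1 (by simp)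
    exact this
  obtain ⟨k, hk⟩ := h
  have hq : (q : ℝ) ≠ 0 := by exact_mod_cast NeZero.ne q
  have h3 : (n : ℝ) = (((n : ZMod q)).val : ℝ) + q * k := by
    have h4 : n = (((n : ZMod q)).val : ℤ) + q * k := by linarith
    exact_mod_cast h4
  have h2 : (n : ℝ) / q = (((n : ZMod q)).val : ℝ) / q + (k : ℝ) := by
    rw [h3, add_div, mul_div_cancel_left₀ _ hq]
  rw [h2, psi_ee_add_int]

theorem psz_add (q : ℕ) [NeZero q] (a b : ZMod q) :
    ee (((a + b).val : ℝ) / q) = ee ((a.val : ℝ) / q) * ee ((b.val : ℝ) / q) := by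
  have ha : (((a.val : ℤ)) : ZMod q) = a := by simp
  have hb : (((b.val : ℤ)) : ZMod q) = b := by simp
  have h1 := psz_int q ((a.val : ℤ) + (b.val : ℤ))
  rw [Int.cast_add, ha, hb] at h1
  rw [h1]
  push_cast
  rw [add_div, psi_ee_add]

theorem psz_one (q : ℕ) [NeZero q] (a : ZMod q) (h : ee ((a.val : ℝ) / q) = 1) : a = 0 := by
  obtain ⟨k, hk⟩ := psi_ee_one _ h
  have hq : (0 : ℝ) < q := by
    have := NeZero.pos q
    exact_mod_cast this
  rw [div_eq_iff hq.ne'] at hk
  have hk2 : (a.val : ℤ) = k * q := by exact_mod_cast hk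
  have h1 : a = ((a.val : ℤ) : ZMod q) := by simp
  rw [h1, hk2]
  push_cast
  simp

theorem psz_trace {m : ℕ} (q : ℕ) (α : ZM m) :
    (cQ q α).trace = ((α.trace : ℤ) : ZMod q) := by
  simp [Matrix.trace, cQ]

theorem pf_PSZ : T_PSZ := by
  intro m q _ _ _
  have hadd : ∀ x y : RM m q, psq q (x + y) = psq q x * psq q y := by
    intro x y
    unfold psq
    rw [Matrix.trace_add, psz_add]
  have hnorm : ∀ x : RM m q, ‖psq q x‖ = 1 := fun x => psi_ee_norm _
  have h0 : psq q (0 : RM m q) = 1 := by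
    unfold psq
    rw [Matrix.trace_zero, ZMod.val_zero]
    simp [psi_ee_zero]
  have hcomm : ∀ x y : RM m q, psq q (x * y) = psq q (y * x) := by
    intro x y
    unfold psq
    rw [Matrix.trace_mul_comm]
  have hnd : ∀ x : RM m q, (∀ y, psq q (x * y) = 1) → x = 0 := by
    intro x hx
    ext i j
    have h1 := hx (Matrix.single j i 1)
    unfold psq at h1
    rw [Matrix.trace_mul_single] at h1
    simpa using psz_one q _ h1
  refine ⟨?_, h0, hadd, hnorm, ?_, hcomm, hnd, ?_⟩
  · intro α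
    unfold psq
    rw [psz_trace, psz_int]
  · intro x
    have h1 := hadd (-x) x
    rw [neg_add_cancel, h0] at h1
    rw [← Complex.inv_eq_conj (hnorm x)]
    exact eq_inv_of_mul_eq_one_left h1.symm
  · intro x hx
    have h1 : ∃ y0, psq q (x * y0) ≠ 1 := by
      by_contra hcon
      push Not at hcon
      exact hx (hnd x hcon)
    obtain ⟨y0, hy0⟩ := h1
    have h2 : ∑ y, psq q (x * y) = psq q (x * y0) * ∑ y, psq q (x * y) := by
      rw [Finset.mul_sum]
      refine (Fintype.sum_equiv (Equiv.addLeft y0) _ _ ?_).symm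
      intro y
      rw [← hadd, ← mul_add]
      rfl
    have h3 : (psq q (x * y0) - 1) * ∑ y, psq q (x * y) = 0 := by
      rw [sub_mul, one_mul, ← h2, sub_self]
    rcases mul_eq_zero.1 h3 with h4 | h4
    · exact absurd (sub_eq_zero.1 h4) hy0
    · exact h4

end Pool.Agent.H27.L1.H86.GZ
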