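import Pool.Agent.H27.L1.H23.GZ.Targets5

/-!
Row GSM of the board gz: leading minors and the orthogonal components of the columns.
-/

namespace Pool.Agent.H27.L1.H86.GZ

open MeasureTheory Pool.Agent.H27.L1.H34.GM Pool.Agent.H27.L1.H34.GZ

/-- the coefficients of the columns in the orthogonal components -/
noncomputable def gU {m : ℕ} (z : Mat m) (i j : Fin m) : ℝ :=
  if i = j then 1 else if i < j then
    inner ℝ (oc z i) (col z j) / ‖oc z i‖ ^ 2 else 0

theorem gU_self {m : ℕ} (z : Mat m) (i : Fin m) : gU z i i = 1 := by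
  unfold gU
  rw [if_pos rfl]

theorem gU_gt {m : ℕ} (z : Mat m) {i j : Fin m} (h : j < i) : gU z i j = 0 := by
  unfold gU
  rw [if_neg (ne_of_gt h), if_neg (not_lt.2 h.le)]

theorem oc_orth {m : ℕ} (z : Mat m) {i j : Fin m} (h : i ≠ j) :
    inner ℝ (oc z i) (oc z j) = 0 :=
  InnerProductSpace.gramSchmidt_orthogonal ℝ (col z) h

theorem col_eq {m : ℕ} (z : Mat m) (j : Fin m) : col z j = ∑ i, gU z i j • oc z i := by
  have h := InnerProductSpace.gramSchmidt_def'' ℝ (col z) j
  have h1 : col z j = oc z j + ∑ i ∈ Finset.Iio j,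
      (inner ℝ (oc z i) (col z j) / ‖oc z i‖ ^ 2) • oc z i := h
  have h2 : ∑ i ∈ Finset.Iio j, (inner ℝ (oc z i) (col z j) / ‖oc z i‖ ^ 2) • oc z i =
      ∑ i ∈ Finset.Iio j, gU z i j • oc z i := by
    refine Finset.sum_congr rfl fun i hi => ?_
    have hij : i < j := Finset.mem_Iio.1 hi
    unfold gU
    rw [if_neg hij.ne, if_pos hij]
  have h3 : ∑ i, gU z i j • oc z i = ∑ i ∈ Finset.Iic j, gU z i j • oc z i := by
    symm
    refine Finset.sum_subset (Finset.subset_univ _) fun i _ hi => ?_
    have hij : j < i := by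
      by_contra hcon
      exact hi (Finset.mem_Iic.2 (not_lt.1 hcon))
    rw [gU_gt z hij, zero_smul]
  have h4 : Finset.Iic j = insert j (Finset.Iio j) := by
    ext i
    rw [Finset.mem_Iic, Finset.mem_insert, Finset.mem_Iio, le_iff_eq_or_lt]
  rw [h3, h4, Finset.sum_insert (by simp), gU_self, one_smul, ← h2]
  exact h1

theorem gram_eq {m : ℕ} (z : Mat m) (j k : Fin m) :
    inner ℝ (col z j) (col z k) = ∑ i, gU z i j * ‖oc z i‖ ^ 2 * gU z i k := by
  rw [col_eq z j, col_eq z k, sum_inner]
  refine Finset.sum_congr rfl fun i _ => ?_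
  rw [inner_sum, Finset.sum_eq_single i]
  · rw [inner_smul_left, inner_smul_right, real_inner_self_eq_norm_sq]
    simp only [conj_trivial]
    ring
  · intro l _ hl
    rw [inner_smul_left, inner_smul_right, oc_orth z (Ne.symm hl)]
    simp
  · intro h
    exact absurd (Finset.mem_univ i) h

theorem tz_eq {m : ℕ} (z : Mat m) (j k : Fin m) :
    (z.transpose * z) j k = inner ℝ (col z j) (col z k) := by
  rw [Matrix.mul_apply]
  unfold col
  rw [EuclideanSpace.inner_toLp_toLp]
  simp only [dotProduct, Matrix.transpose_apply]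
  refine Finset.sum_congr rfl fun i _ => ?_
  simp [mul_comm]

theorem mnr_eq {m : ℕ} (z : Mat m) (J : ℕ) (hJ : J ≤ m) :
    mnr z J = ∏ i : Fin J, ‖oc z (Fin.castLE hJ i)‖ ^ 2 := by
  let U : Matrix (Fin J) (Fin J) ℝ := Matrix.of fun i j => gU z (Fin.castLE hJ i) (Fin.castLE hJ j)
  let D : Fin J → ℝ := fun i => ‖oc z (Fin.castLE hJ i)‖ ^ 2
  have hG : (z.transpose * z).submatrix (Fin.castLE hJ) (Fin.castLE hJ) =
      U.transpose * Matrix.diagonal D * U := by
    ext j k
    rw [Matrix.submatrix_apply, tz_eq, gram_eq, Matrix.mul_apply]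
    have h1 : ∀ x : Fin J, (U.transpose * Matrix.diagonal D) j x * U x k =
        gU z (Fin.castLE hJ x) (Fin.castLE hJ j) * ‖oc z (Fin.castLE hJ x)‖ ^ 2 *
          gU z (Fin.castLE hJ x) (Fin.castLE hJ k) := by
      intro x
      rw [Matrix.mul_diagonal]
      rfl
    simp only [h1]
    have h2 : ∑ i ∈ Finset.univ.map (Fin.castLEEmb hJ),
        gU z i (Fin.castLE hJ j) * ‖oc z i‖ ^ 2 * gU z i (Fin.castLE hJ k) =
        ∑ x : Fin J, gU z (Fin.castLE hJ x) (Fin.castLE hJ j) * ‖oc z (Fin.castLE hJ x)‖ ^ 2 *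
          gU z (Fin.castLE hJ x) (Fin.castLE hJ k) :=
      Finset.sum_map Finset.univ (Fin.castLEEmb hJ) _
    rw [← h2]
    symm
    refine Finset.sum_subset (Finset.subset_univ _) fun i _ hi => ?_
    have hij : Fin.castLE hJ j < i := by
      by_contra hcon
      apply hi
      rw [Finset.mem_map]
      have h2 : (i : ℕ) ≤ j := not_lt.1 hcon
      exact ⟨⟨i, lt_of_le_of_lt h2 j.2⟩, Finset.mem_univ _, by ext; rfl⟩
    rw [gU_gt z hij, zero_mul, zero_mul]
  have hU : U.det = 1 := by
    have ht : U.BlockTriangular id := by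
      intro i j hij
      have h1 : Fin.castLE hJ j < Fin.castLE hJ i := hij
      exact gU_gt z h1
    rw [Matrix.det_of_isUpperTriangular ht]
    refine Finset.prod_eq_one fun i _ => ?_
    exact gU_self z _
  unfold mnr
  rw [dif_pos hJ, hG, Matrix.det_mul, Matrix.det_mul, Matrix.det_transpose, hU, one_mul, mul_one,
    Matrix.det_diagonal]

theorem pf_GSM : T_GSM := by
  intro m z
  have h3 : |z.det| = ∏ j, ‖oc z j‖ := by
    have h1 := mnr_eq z m le_rfl
    have h2 : mnr z m = z.det ^ 2 := by
      unfold mnr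
      rw [dif_pos le_rfl]
      have : (z.transpose * z).submatrix (Fin.castLE le_rfl) (Fin.castLE le_rfl) =
          z.transpose * z := by
        ext i j
        rfl
      rw [this, Matrix.det_mul, Matrix.det_transpose]
      ring
    have h4 : z.det ^ 2 = (∏ j, ‖oc z j‖) ^ 2 := by
      rw [← h2, h1, ← Finset.prod_pow]
      rfl
    have h5 : 0 ≤ ∏ j, ‖oc z j‖ := Finset.prod_nonneg fun j _ => norm_nonneg _
    rw [← abs_of_nonneg h5]
    exact (sq_eq_sq_iff_abs_eq_abs _ _).1 h4
  have h4 : z.det ≠ 0 → ∀ j, 0 < ‖oc z j‖ := by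
    intro hz j
    rcases (norm_nonneg (oc z j)).lt_or_eq with h | h
    · exact h
    · exfalso
      apply hz
      rw [← abs_eq_zero, h3]
      exact Finset.prod_eq_zero (Finset.mem_univ j) h.symm
  have hspan : ∀ j : Fin m, Submodule.span ℝ (oc z '' Set.Iio j) =
      Submodule.span ℝ (col z '' Set.Iio j) := fun j =>
    InnerProductSpace.span_gramSchmidt_Iio ℝ (col z) j
  have h6 : ∀ j, oc z j =
      col z j - (Submodule.span ℝ (col z '' Set.Iio j)).starProjection (col z j) := by
    intro j
    have h7 : (Submodule.span ℝ (col z '' Set.Iio j)).starProjection (col z j) =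
        col z j - oc z j := by
      apply Submodule.eq_starProjection_of_mem_of_inner_eq_zero
      · rw [← hspan]
        have h8 : col z j - oc z j = ∑ i ∈ Finset.Iio j,
            (inner ℝ (oc z i) (col z j) / ‖oc z i‖ ^ 2) • oc z i := by
          have h := InnerProductSpace.gramSchmidt_def'' ℝ (col z) j
          have h1 : col z j = oc z j + ∑ i ∈ Finset.Iio j,
              (inner ℝ (oc z i) (col z j) / ‖oc z i‖ ^ 2) • oc z i := h
          rw [sub_eq_iff_eq_add']
          exact h1
        rw [h8]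
        refine Submodule.sum_mem _ fun i hi => Submodule.smul_mem _ _ (Submodule.subset_span ?_)
        exact ⟨i, Finset.mem_Iio.1 hi, rfl⟩
      · intro w hw
        rw [← hspan] at hw
        rw [sub_sub_cancel]
        refine Submodule.span_induction ?_ ?_ ?_ ?_ hw
        · rintro x ⟨i, hi, rfl⟩
          exact oc_orth z (ne_of_gt hi)
        · rw [inner_zero_right]
        · intro x y _ _ hx hy
          rw [inner_add_right, hx, hy, add_zero]
        · intro a x _ hx
          rw [inner_smul_right, hx, mul_zero]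
    rw [h7, sub_sub_cancel]
  refine ⟨?_, ?_, h3, h4, ?_, h6, ?_⟩
  · rw [mnr_eq z 0 (Nat.zero_le m)]
    simp
  · intro j
    rw [mnr_eq z ((j : ℕ) + 1) j.2, mnr_eq z (j : ℕ) j.2.le, Fin.prod_univ_castSucc]
    rfl
  · intro j
    constructor
    · have h5 := gram_eq z j j
      rw [real_inner_self_eq_norm_sq] at h5
      have h7 : ‖oc z j‖ ^ 2 ≤ ‖col z j‖ ^ 2 := by
        rw [h5]
        refine le_trans (le_of_eq ?_) (Finset.single_le_sum
          (f := fun i => gU z i j * ‖oc z i‖ ^ 2 * gU z i j) (fun i _ => ?_) (Finset.mem_univ j))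
        · rw [gU_self]
          ring
        · nlinarith [mul_nonneg (sq_nonneg (gU z i j)) (sq_nonneg ‖oc z i‖)]
      exact (sq_le_sq₀ (norm_nonneg _) (norm_nonneg _)).1 h7
    · have hm1 : (1 : ℝ) ≤ m := by
        have : 0 < m := lt_of_le_of_lt (Nat.zero_le _) j.2
        exact_mod_cast this
      have hs0 : 0 ≤ sz z := norm_nonneg _
      have hle : ∀ i, |z i j| ≤ sz z := by
        intro i
        have h8 := norm_le_pi_norm (fun i j => z i j : V m) i
        have h9 := norm_le_pi_norm (fun j => z i j : Fin m → ℝ) j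
        exact h9.trans h8
      have h10 : ‖col z j‖ ^ 2 ≤ (m * sz z) ^ 2 := by
        rw [EuclideanSpace.norm_sq_eq]
        calc ∑ i, ‖(col z j) i‖ ^ 2 ≤ ∑ i : Fin m, sz z ^ 2 := by
              refine Finset.sum_le_sum fun i _ => ?_
              have h11 : ‖(col z j) i‖ = |z i j| := rfl
              rw [h11]
              exact pow_le_pow_left₀ (abs_nonneg _) (hle i) 2
          _ = m * sz z ^ 2 := by
              rw [Finset.sum_const, Finset.card_univ, Fintype.card_fin, nsmul_eq_mul]
          _ ≤ (m * sz z) ^ 2 := by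
              rw [mul_pow]
              refine mul_le_mul_of_nonneg_right ?_ (sq_nonneg _)
              nlinarith
      exact (sq_le_sq₀ (norm_nonneg _) (by positivity)).1 h10
  · intro hz j
    rw [← hspan, Set.image_eq_range]
    have hli : LinearIndependent ℝ (fun i : Set.Iio j => oc z i) := by
      apply linearIndependent_of_ne_zero_of_inner_eq_zero
      · intro i h
        have := h4 hz i
        rw [h, norm_zero] at this
        exact lt_irrefl _ this
      · intro i k hik
        exact oc_orth z (fun h => hik (Subtype.ext h))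
    rw [finrank_span_eq_card hli]
    simp

end Pool.Agent.H27.L1.H86.GZ
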